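import Pool.Agent.N566.CX.Stm
import Pool.Agent.N803.VS.CexB

/-!
# The exact factor between the function of a clasp and the sum (job CX1)

`stp (-2) 1 N ψ = - I (-1)^N (2 π / N) exp (π I N / 2 + π I / (2 N)) Wc N ψ`.
-/

set_option autoImplicit false

namespace Pool.Agent.N568.CX

open Filter Finset MeasureTheory
open scoped Real Topology Interval
open Pool.Agent.W711.HT (Rp Sd Ea kr upp stp phi)
open Pool.Agent.N803.VS

/-- the last integral, exactly -/
lemma II_last_eq {N : ℕ} (hN : 0 < N) : II N (N - 1) = 2 * π * Complex.I * (-1) ^ N *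
    Complex.exp (-(Complex.I * π * (N - 2 + 1 / N) / 2)) := by
  have hNR : (0 : ℝ) < N := by exact_mod_cast hN
  have hN0 : (N : ℂ) ≠ 0 := by exact_mod_cast hN.ne'
  have hh : (0 : ℝ) < 1 / N := by positivity
  have hpi := Real.pi_pos
  have hpi0 : (π : ℂ) ≠ 0 := by exact_mod_cast Real.pi_ne_zero
  have hEd := Pool.Agent.W346.HT.Ea_diff (-2) N
  have hE : ∀ z, Ea (-2) N (-z) = Ea (-2) N z := by
    intro z
    unfold Ea
    congr 1
    ring
  have h1 := Pool.Agent.W490.AR.rect_GZ (F := Ea (-2) N) (N := N) (n := 0) hN hh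
  have hph := Pool.Agent.W709.VC.phi_mem (N := N) (j := 0) hN
  have h2 := Pool.Agent.W490.AR.rect_QF hEd hE N (range (0 + 1)) ⟨0, by simp⟩ 1 (1 / N)
    (by
      intro j hj
      have : j = 0 := by simpa using hj
      subst this
      rw [Pool.Agent.W349.HT.zz_one]
      refine ⟨by simpa using hph.1, by simpa using hph.2, by simpa using hN⟩)
    (by
      intro i hi j hj _
      simp at hi hj
      omega)
  rw [h2] at h1
  have h3 : Pool.Agent.W709.VC.rect (Pool.Agent.W490.AR.GZ (Ea (-2) N) N 0) (-π) π (-(1 / N))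
      (1 / N) = -2 * II N (N - 1) :=
    Pool.Agent.W349.HT.rect_upp hh (Pool.Agent.W490.AR.GZ_odd hE N 0)
      (Pool.Agent.W490.AR.GZ_RI hEd hN hh)
  rw [h3] at h1
  have h5 : Ea (-2) N (Pool.Agent.W709.VC.zz N 1 0 - π) =
      Complex.exp (-(Complex.I * π * (N - 2 + 1 / N) / 2)) := by
    rw [Pool.Agent.W349.HT.zz_one]
    unfold Ea Pool.Agent.W709.VC.phi
    congr 1
    push_cast
    field_simp
    ring
  have h6 : ∀ v : ℕ → ℂ, Lagrange.nodalWeight ({0} : Finset ℕ) v 0 = 1 := by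
    intro v
    simp [Lagrange.nodalWeight]
  simp only [zero_add, range_one, sum_singleton, h5, h6, one_mul, Nat.sub_zero] at h1
  obtain ⟨n, rfl⟩ : ∃ n, N = n + 1 := ⟨N - 1, by omega⟩
  rw [Nat.add_sub_cancel] at h1 ⊢
  have h7 : ((-1 : ℂ) ^ n) * (-1) ^ n = 1 := by
    rw [← mul_pow]; simp
  rw [pow_succ]
  linear_combination ((1 / 2 : ℂ) * (-1) ^ n) * h1 - (II (n + 1) n) * h7

/-- the value of the first integral -/
lemma II_zero {N : ℕ} (hN : 0 < N) : II N 0 = -(Complex.I * (-1) ^ N * (2 * π / N) *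
    Complex.exp (π * Complex.I * N / 2 + π * Complex.I / (2 * N))) := by
  have hN0 : (N : ℂ) ≠ 0 := by exact_mod_cast hN.ne'
  have hpi0 : (π : ℂ) ≠ 0 := by exact_mod_cast Real.pi_ne_zero
  have h1 := II_last_eq hN
  rw [II_eq hN, Pool.Agent.W346.HT.Sd_full hN] at h1
  obtain ⟨n, rfl⟩ : ∃ n, N = n + 1 := ⟨N - 1, by omega⟩
  rw [Nat.add_sub_cancel] at h1
  have hI : (-Complex.I) ^ n = Complex.exp (-(π * Complex.I * n / 2)) := by
    have e1 : -Complex.I = Complex.exp (-(π / 2 * Complex.I)) := by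
      rw [Complex.exp_neg, Complex.exp_pi_div_two_mul_I, Complex.inv_I]
    rw [e1, ← Complex.exp_nat_mul]
    congr 1
    ring
  set A : ℂ := -(Complex.I * π * (n * (n - 1)) / (2 * ((n + 1 : ℕ) : ℂ))) with hA
  set B : ℂ := π * Complex.I * ((n + 1 : ℕ) : ℂ) / 2 + π * Complex.I / (2 * ((n + 1 : ℕ) : ℂ))
    with hB
  set C : ℂ := -(Complex.I * π * (((n + 1 : ℕ) : ℂ) - 2 + 1 / ((n + 1 : ℕ) : ℂ)) / 2) with hC
  have hkey : (-Complex.I) ^ n * Complex.exp A * Complex.exp B = -Complex.exp C := by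
    rw [hI, ← Complex.exp_add, ← Complex.exp_add]
    have e2 : -(π * Complex.I * n / 2) + A + B = C + π * Complex.I := by
      rw [hA, hB, hC]
      have : (n : ℂ) = ((n + 1 : ℕ) : ℂ) - 1 := by push_cast; ring
      rw [this]
      field_simp
      ring
    rw [e2, Complex.exp_add, Complex.exp_pi_mul_I]
    ring
  have hne : (-Complex.I) ^ n * Complex.exp A * (((n + 1 : ℕ) : ℝ) : ℂ) ≠ 0 := by
    refine mul_ne_zero (mul_ne_zero (pow_ne_zero _ (neg_ne_zero.2 Complex.I_ne_zero))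
      (Complex.exp_ne_zero _)) ?_
    exact_mod_cast hN0
  apply mul_left_cancel₀ hne
  rw [h1]
  have e3 : (((n + 1 : ℕ) : ℝ) : ℂ) = ((n + 1 : ℕ) : ℂ) := by push_cast; ring
  rw [e3]
  have e4 : (-Complex.I) ^ n * Complex.exp A * ((n + 1 : ℕ) : ℂ) *
      -(Complex.I * (-1) ^ (n + 1) * (2 * π / ((n + 1 : ℕ) : ℂ)) * Complex.exp B) =
      -(Complex.I * (-1) ^ (n + 1) * (2 * π)) *
        ((-Complex.I) ^ n * Complex.exp A * Complex.exp B) := by
    field_simp
  rw [e4, hkey]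
  ring

/-- job CX1 -/
theorem cexe : ∀ N : ℕ, 2 ≤ N → ∀ ψ : ℂ, stp (-2) (fun _ _ => 1) N ψ =
    -(Complex.I * (-1) ^ N * (2 * π / N) *
      Complex.exp (π * Complex.I * N / 2 + π * Complex.I / (2 * N)) *
      Pool.Agent.N561.Wc N ψ) := by
  intro N hN2 ψ
  have hN : 0 < N := by omega
  have hN0 : (N : ℂ) ≠ 0 := by exact_mod_cast hN.ne'
  have e0 : -(Complex.I * (-1) ^ N * (2 * π / N) *
      Complex.exp (π * Complex.I * N / 2 + π * Complex.I / (2 * N)) *
      Pool.Agent.N561.Wc N ψ) = II N 0 * Pool.Agent.N561.Wc N ψ := by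
    rw [II_zero hN]; ring
  rw [e0, Pool.Agent.W398.HT.stp_eq (-2) (fun _ _ => 1) (fun _ => differentiable_const _) N ψ,
    Pool.Agent.N561.Wc, mul_sum]
  apply sum_congr rfl
  intro d hd
  rw [mem_range] at hd
  have hS : (Sd N d : ℂ) ≠ 0 := by
    exact_mod_cast (Pool.Agent.W346.HT.Sd_pos hd).ne'
  have e1 : (upp (1 / N) fun ψ => Ea (-2) N ψ * 1 * Rp N d ψ * kr N ψ) = II N d := by
    unfold II
    congr 1
    funext φ
    ring
  rw [e1, II_eq hN]
  field_simp

end Pool.Agent.N568.CX
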